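import Mathlib
import Pool.Agent.U623.HC.Main

/-!
# MP_c2d7b4_nt: words with a common first part and a common last part

Let `U` be a finite set of words in positive integers. The values `ζ(p u t)`, `u ∈ U` (the letters of `p` belong to the
largest summation variables), satisfy no linear relation with given real coefficients, not all zero, if the last part `t` is
long and the weight minus the depth of the admissible first part `p` is at least `(length t) ^ E`; and none whose
coefficients are polynomials in `π` of degree at most `d` with integer coefficients of absolute value at most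
`κ · length t`. The values of these linear forms are at least `ζ(p, 2, ..., 2, t) / (length t) ^ E`, with `J` letters `2`.
For words `p`, `u`, `t` in the letters `2`, `3` the `ζ(p u t)` are Hoffman elements, and Hoffman's conjecture says that they
satisfy no relation at all; here they differ only in the middle.

Proof. `ζ(p u t)` is the sum of the truncated harmonic sums of `u t` at `n` with weights `w(n)` which depend on `p`, and
`(n + 2 + wt p - dep p) w(n+1) ≤ (n + 1) w(n)` for all admissible `p`: a Newton inequality proved letter by letter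
(Bernoulli's inequality). The combination of the truncated sums is zero below `length t + j` and equal to
`H_t(length t) Q(length t)` at `length t + j`, where `Q` is a rational function, not zero, which does not depend on `t`; this
value dominates the sum.
-/

set_option autoImplicit false

namespace Pool.Agent.Results.MP_c2d7b4_nt.CommonFirstAndLastParts

/-- the multiple zeta value of the list `l`, the first entry belongs to the largest summation variable -/
noncomputable def mzv (l : List ℕ) : ℝ :=
  ∑' m : {m : Fin l.length → ℕ // StrictAnti m ∧ ∀ i, 0 < m i}, ∏ i, ((m.1 i : ℝ) ^ (l.get i))⁻¹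

/-- the list of natural numbers of a list of positive integers -/
def toNat (u : List ℕ+) : List ℕ := List.map (fun x : ℕ+ => (x : ℕ)) u

/-- `p` is an admissible word (positive letters, the first at least two), `t` a word in positive integers, and the weight
minus the depth of `p` is at least `(length t) ^ E` -/
def Parts (E : ℕ) (p t : List ℕ) : Prop :=
  (∀ x ∈ p, 1 ≤ x) ∧ (∀ a q, p = a :: q → 2 ≤ a) ∧ (∀ x ∈ t, 1 ≤ x) ∧ t.length ^ E + p.length ≤ p.sum

lemma mzv_eq {l : List ℕ} (hl : Pool.Agent.H447R2.MZ.Adm l) : mzv l = Pool.Agent.H447R2.MZ.val l := by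
  have h1 := Pool.Agent.H447R2.MZ.hasSum_val l.length l.get (by rw [List.ofFn_get]; exact hl)
  rw [List.ofFn_get] at h1
  exact h1.tsum_eq

lemma p_ne {E : ℕ} {p t : List ℕ} (h : Parts E p t) (ht : t ≠ []) : p ≠ [] := by
  rintro rfl
  have h1 := h.2.2.2
  rw [List.length_nil, List.sum_nil, add_zero] at h1
  have h2 : 0 < t.length ^ E := by
    have : 0 < t.length := List.length_pos_iff.2 ht
    positivity
  omega

lemma two_pos (J : ℕ) : ∀ x ∈ List.replicate J 2, 1 ≤ x := by
  intro x hx
  rw [(List.mem_replicate.1 hx).2]
  norm_num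

/-- **Theorem.** For every finite set `U` of words in positive integers and every `d` there are `J`, `E` with the following
two properties. (1) For all real numbers `c_u`, `u ∈ U`, not all zero, there is `n0` such that for all words `t` of length at
least `n0` and all admissible words `p` whose weight minus depth is at least `(length t) ^ E`,
`|∑ c_u ζ(p u t)| ≥ ζ(p, 2, ..., 2, t) / (length t) ^ E > 0` with `J` letters `2`. (2) There is `κ > 0` such that this holds
for all such `p`, `t` (`t` of any length) and all `c_u = C_u(π)`, where the `C_u` are polynomials of degree at most `d`, not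
all zero, with integer coefficients of absolute value at most `κ · length t`. -/
theorem result (U : Finset (List ℕ+)) (d : ℕ) : ∃ J E : ℕ,
    (∀ c : List ℕ+ → ℝ, (∃ u ∈ U, c u ≠ 0) → ∃ n0 : ℕ, ∀ p t : List ℕ, Parts E p t → n0 ≤ t.length →
      0 < mzv (p ++ List.replicate J 2 ++ t) ∧
      mzv (p ++ List.replicate J 2 ++ t) / (t.length : ℝ) ^ E ≤ |∑ u ∈ U, c u * mzv (p ++ toNat u ++ t)|) ∧
    (∃ κ : ℝ, 0 < κ ∧ ∀ p t : List ℕ, Parts E p t → ∀ C : List ℕ+ → Polynomial ℤ, (∃ u ∈ U, C u ≠ 0) →
      (∀ u ∈ U, (C u).natDegree ≤ d) → (∀ u ∈ U, ∀ i, |((C u).coeff i : ℝ)| ≤ κ * t.length) →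
      0 < mzv (p ++ List.replicate J 2 ++ t) ∧
      mzv (p ++ List.replicate J 2 ++ t) / (t.length : ℝ) ^ E ≤
        |∑ u ∈ U, Polynomial.aeval Real.pi (C u) * mzv (p ++ toNat u ++ t)|) := by
  obtain ⟨J, E, h1, κ, hκ, h2⟩ := Pool.Agent.U623.HC.main U d
  refine ⟨J, E, ?_, κ, hκ, ?_⟩
  · intro c hc
    obtain ⟨n0, h3⟩ := h1 c hc
    refine ⟨n0 + 1, fun p t hpt hn => ?_⟩
    have ht : t ≠ [] := by
      rintro rfl
      simp at hn
    have hp := p_ne hpt ht
    obtain ⟨h4, h5⟩ := h3 p t hpt (by omega)
    have e1 : mzv (p ++ List.replicate J 2 ++ t) =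
        Pool.Agent.H447R2.MZ.val (p ++ (List.replicate J 2 ++ t)) := by
      rw [List.append_assoc, mzv_eq (Pool.Agent.U623.HC.adm_parts hpt hp _ (two_pos J))]
    have e2 : ∀ u, mzv (p ++ toNat u ++ t) =
        Pool.Agent.H447R2.MZ.val (p ++ (Pool.Agent.Q217.TT.nat u ++ t)) := by
      intro u
      rw [List.append_assoc, toNat, ← Pool.Agent.Q217.TT.nat,
        mzv_eq (Pool.Agent.U623.HC.adm_parts hpt hp _ (Pool.Agent.U623.HC.nat_pos u))]
    simp only [e1, e2]
    exact ⟨h4, h5⟩
  · intro p t hpt C hC hCd hCb
    have ht : t ≠ [] := by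
      rintro rfl
      obtain ⟨u, hu, hCu⟩ := hC
      apply hCu
      ext i
      have := hCb u hu i
      rw [List.length_nil, Nat.cast_zero, mul_zero] at this
      have h3 := abs_nonpos_iff.1 this
      rw [Polynomial.coeff_zero]
      exact_mod_cast h3
    have hp := p_ne hpt ht
    obtain ⟨h4, h5⟩ := h2 p t hpt C hC hCd hCb
    have e1 : mzv (p ++ List.replicate J 2 ++ t) =
        Pool.Agent.H447R2.MZ.val (p ++ (List.replicate J 2 ++ t)) := by
      rw [List.append_assoc, mzv_eq (Pool.Agent.U623.HC.adm_parts hpt hp _ (two_pos J))]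
    have e2 : ∀ u, mzv (p ++ toNat u ++ t) =
        Pool.Agent.H447R2.MZ.val (p ++ (Pool.Agent.Q217.TT.nat u ++ t)) := by
      intro u
      rw [List.append_assoc, toNat, ← Pool.Agent.Q217.TT.nat,
        mzv_eq (Pool.Agent.U623.HC.adm_parts hpt hp _ (Pool.Agent.U623.HC.nat_pos u))]
    simp only [e1, e2]
    exact ⟨h4, h5⟩

end Pool.Agent.Results.MP_c2d7b4_nt.CommonFirstAndLastParts
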