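import Mathlib
import Pool.Agent.U831.AF.CurveDist

/-!
# `π` and one zeta value: at every scale one curve carries all exceptional polynomials

The conjecture of the problem implies that `π` and each odd zeta value are algebraically independent.
Let `t` be `ζ(s)`, `s ≥ 2` (or any real number with `|t| ≤ B`). For every large `S` there is ONE polynomial
`F(x, y)` with rational coefficients, zero or irreducible and not constant in `y`, such that on the whole
range of scales `N` between `S` and `S ^ M` every integer polynomial `P` of degree at most `D` in each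
variable and of height at most `N ^ κ` has one of the following two properties: the multiples of `P(π, t)`
modulo one are equidistributed at the scale `N` with a power saving, or there is a fraction `p / q` with a
small denominator very close to `P(π, t)` such that `F` divides `q P - p`. The constants depend only on
`D`, `M` and `B`; they are the same for all zeta values.

So at each scale there is at most one algebraic curve through (or extremely near to) the point
`(π, ζ(s))`. For example, if `ζ(3) / π ^ 3` were the rational number `r`, it would be `y = r x ^ 3`.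

The proof. Bad distribution gives small relations. Along a sequence of scales and an ultrafilter, the
sequences of polynomial growth modulo those smaller than all powers form a field. The class of `π` is
transcendental over the ring `D` of the classes of integer sequences by the transcendence measure of `π`,
so the polynomials over `D` which vanish at the classes of `π` and `t` are, up to denominators in `D[x]`,
the multiples of one polynomial (a minimal polynomial over the fraction field of `D[x]`), or all zero. The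
divisibility is lifted back to the scales, where the denominators in `ℚ[x]` are removed with an
irreducible factor which is not constant in `y`.
-/

set_option autoImplicit false

namespace Pool.Agent.Results.MP_c2d7b4_nt.OneCurveForZetaValues

open Polynomial

/-- `ζ(s) = ∑_{n ≥ 1} n^(-s)` -/
noncomputable def zeta (s : ℕ) : ℝ := ∑' n : ℕ, 1 / ((n : ℝ) + 1) ^ s

/-- the number of `m < N` with the fractional part of `m θ + γ` in `[u, v)` -/
noncomputable def count (θ γ u v : ℝ) (N : ℕ) : ℕ :=
  ((Finset.range N).filter fun m : ℕ => u ≤ Int.fract (m * θ + γ) ∧ Int.fract (m * θ + γ) < v).card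

/-- the sequence `m θ + γ`, `m < N`, is equidistributed with an error at most `N ^ (1 - κ)` -/
def Good (κ : ℝ) (N : ℕ) (θ : ℝ) : Prop :=
  ∀ γ u v : ℝ, 0 ≤ u → u ≤ v → v ≤ 1 → |(count θ γ u v N : ℝ) - (v - u) * N| ≤ (N : ℝ) ^ (1 - κ)

/-- the value `P(x, t)` of the polynomial with coefficients `a` -/
noncomputable def value {D : ℕ} (a : Fin (D + 1) → Fin (D + 1) → ℤ) (x t : ℝ) : ℝ :=
  ∑ i, ∑ j, (a i j : ℝ) * (x ^ (i : ℕ) * t ^ (j : ℕ))

/-- the polynomial `P(x, y)` with coefficients `a`, as a polynomial in `y` over `ℚ[x]` -/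
noncomputable def poly {D : ℕ} (a : Fin (D + 1) → Fin (D + 1) → ℤ) : ℚ[X][X] :=
  ∑ i, ∑ j, C (C (a i j : ℚ) * X ^ (i : ℕ)) * X ^ (j : ℕ)

theorem zeta_bound (s : ℕ) (hs : 2 ≤ s) : |zeta s| ≤ 2 := by
  have h2 : Summable fun n : ℕ => 1 / ((n : ℝ) + 1) ^ 2 := by
    have := (summable_nat_add_iff 1).2 (Real.summable_one_div_nat_pow.2 (by norm_num : 1 < 2))
    refine this.congr fun n => ?_
    push_cast
    rfl
  have hle : ∀ n : ℕ, 1 / ((n : ℝ) + 1) ^ s ≤ 1 / ((n : ℝ) + 1) ^ 2 := by
    intro n
    apply one_div_le_one_div_of_le (by positivity)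
    apply pow_le_pow_right₀ _ hs
    have : (0 : ℝ) ≤ n := by positivity
    linarith
  have hs' : Summable fun n : ℕ => 1 / ((n : ℝ) + 1) ^ s :=
    Summable.of_nonneg_of_le (fun n => by positivity) hle h2
  have h0 : 0 ≤ zeta s := tsum_nonneg fun n => by positivity
  rw [abs_of_nonneg h0]
  calc zeta s ≤ ∑' n : ℕ, 1 / ((n : ℝ) + 1) ^ 2 := hs'.tsum_le_tsum hle h2
    _ = Pool.Agent.V11210.ZZ.zeta 2 := rfl
    _ ≤ 2 := Pool.Agent.V11210.ZZ.zeta_two_le

/-- **One curve at each scale.** -/
theorem result (D : ℕ) (B M : ℝ) (hM : 1 ≤ M) :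
    ∃ κ : ℝ, 0 < κ ∧ ∃ X₀ : ℝ, ∀ t : ℝ, (|t| ≤ B ∨ ∃ s : ℕ, 2 ≤ s ∧ t = zeta s) → ∀ S : ℝ, X₀ ≤ S →
      ∃ F : ℚ[X][X], (F = 0 ∨ (Irreducible F ∧ 1 ≤ F.natDegree)) ∧
        ∀ N : ℕ, S ≤ N → (N : ℝ) ≤ S ^ M → ∀ a : Fin (D + 1) → Fin (D + 1) → ℤ,
          (∀ i j, |(a i j : ℝ)| ≤ (N : ℝ) ^ κ) →
            Good κ N (value a Real.pi t) ∨
            ∃ (q : ℕ) (p : ℤ), 1 ≤ q ∧ (q : ℝ) ≤ 20 * (N : ℝ) ^ κ ∧
              |(q : ℝ) * value a Real.pi t - p| ≤ 20 * (N : ℝ) ^ (κ - 1) ∧
              F ∣ C (C (q : ℚ)) * poly a - C (C (p : ℚ)) := by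
  obtain ⟨κ, hκ, -, X₀, hX₀, h⟩ := Pool.Agent.U831.AF.curve Real.pi Pool.Agent.TH456.TM.measT_pi D
    (max B 2) M hM
  refine ⟨κ, hκ, X₀, fun t ht S hS => ?_⟩
  have htB : |t| ≤ max B 2 := by
    rcases ht with ht | ⟨s, hs, rfl⟩
    · exact ht.trans (le_max_left _ _)
    · exact (zeta_bound s hs).trans (le_max_right _ _)
  obtain ⟨F, hF, h1⟩ := h t htB S hS
  refine ⟨F, hF, fun N hSN hNS a ha => ?_⟩
  have hN : 0 < (N : ℝ) := by linarith
  have hval : Pool.Agent.U831.AF.form (Pool.Agent.U831.AF.mon2 D Real.pi t) (fun ij => a ij.1 ij.2) =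
      value a Real.pi t := by
    unfold Pool.Agent.U831.AF.form value
    rw [Fintype.sum_prod_type]
    rfl
  have hpoly : Pool.Agent.U831.AF.polyV (fun ij : Fin (D + 1) × Fin (D + 1) => a ij.1 ij.2) = poly a := by
    unfold Pool.Agent.U831.AF.polyV poly
    rw [Fintype.sum_prod_type]
  have h2 := h1 N hSN hNS (fun ij => a ij.1 ij.2) (fun ij => ha ij.1 ij.2)
  rw [hval, hpoly] at h2
  rcases h2 with h2 | h2
  · left
    intro γ u v hu huv hv
    have h3 := h2 γ u v hu huv hv
    have h4 : (N : ℝ) ^ (-κ) * N = (N : ℝ) ^ (1 - κ) := by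
      rw [sub_eq_add_neg, add_comm, Real.rpow_add hN, Real.rpow_one]
    rw [h4] at h3
    exact h3
  · exact Or.inr h2

end Pool.Agent.Results.MP_c2d7b4_nt.OneCurveForZetaValues
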