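import Pool.Agent.U553.HY.Dims

/-!
# MP_c2d7b4_nt: Hoffman's basis conjecture and patterns whose constant first letters are `2` and `3`

A pattern in `k` variables is a list of letters `b + u_1 s_1 + ... + u_k s_k` with natural numbers `b`, `u_j`; at a tuple `s`
of natural numbers it gives an index. Its constant part is the list of its first letters up to the first letter that is not
constant, for example `(2, 3)` for `ζ(2, 3, s_1, 1, s_1 + s_2)`; a pattern may be constant, such as a word in `2`, `3`. The
patterns `w_1, ..., w_r` are independent off few hyperplanes if for every `κ` there is `K` such that for all `C` and all large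
`N` the following tuples lie on at most `K` hyperplanes `∑ b_j s_j = c` with integers `c` and `b_j`, not all zero, `|b_j| ≤ K`: the
tuples `s`, `2 ≤ s_j ≤ κ N`, for which in each of the patterns the first letter which is not constant is at least `N`, and for
which the `ζ(w_i(s))` satisfy a nontrivial linear relation with integer coefficients of absolute value at most `C ^ N`.

Theorem.
(1) The following are equivalent: (a) the Hoffman elements, the `ζ(q)` for the words `q` in `2`, `3`, are linearly independent
over `ℚ` (this is Q1, by Brown's theorem); (b) all finite families of different admissible patterns whose constant parts are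
words in `2`, `3` are independent off few hyperplanes, so that the linear independence of the Hoffman elements would extend to
all these patterns; (c) for these families and all dispersed sequences `F(n)` of tuples (such as the values of real
polynomials of which no nontrivial integer combination is constant) at most `K (W + 1)` numbers `n` have an exceptional tuple
`s`, `|s_j - F_j(n)| ≤ W`, of the scale `N`; (d) for all finite families of different admissible patterns in one variable, which
contain the variable, with words in `2`, `3` as constant parts, and for all `B` there is ONE `s ≥ 2` such that there is no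
nontrivial relation with coefficients at most `B`.
(2) The same for all sets `Q` of admissible indices, with the empty one, which contain the initial segments of their elements,
instead of the words in `2`, `3`.
(3) Unconditionally, different patterns are independent off few hyperplanes, if their constant parts are of the form
`(2, ..., 2)` (or `(2 m, ..., 2 m)`, for a fixed `m`); or `()`, `(2)`, `(3)`.

Proof: `Pool.Agent.U553.HY` (with `Pool.Agent.X90.DC` and `Pool.Agent.N665.LP` of the starting library, the subspace theorem)
splits the relations into relations of the constant parts, off few hyperplanes; conversely, a relation between the `ζ(q)` is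
multiplied by `ζ(s)`. For (3): `π` is transcendental, and `1`, `ζ(2)`, `ζ(3)` are linearly independent (starting library).
-/

set_option autoImplicit false

namespace Pool.Agent.Results.MP_c2d7b4_nt.PatternsWithHoffmanFronts

open Pool.Agent.U553.HY (Range OnHyperplanes Dispersed OffH AlongD NoRel coreI off_even off_23)

/-- `trunc [s_1, ..., s_r] m` is the sum of `∏ n_i ^ (-s_i)` over `m > n_1 > ... > n_r ≥ 1` -/
noncomputable def trunc : List ℕ → ℕ → ℝ
  | [], _ => 1
  | s :: l, m => ∑ j ∈ Finset.Ico 1 m, trunc l j / (j : ℝ) ^ s

/-- the multiple zeta value `ζ(s_1, ..., s_r)`, the sum of `∏ n_i ^ (-s_i)` over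
`n_1 > ... > n_r ≥ 1`; `ζ() = 1` -/
noncomputable def mzv : List ℕ → ℝ
  | [] => 1
  | s :: l => ∑' m : ℕ, trunc l (m + 1) / ((m + 1 : ℕ) : ℝ) ^ s

/-- admissible indices: the empty index and `(s_1, ..., s_r)` with `s_1 ≥ 2` and all `s_i ≥ 1` -/
def Admissible : List ℕ → Prop
  | [] => True
  | s :: l => 2 ≤ s ∧ ∀ t ∈ l, 1 ≤ t

/-- the letter `(b, u)` stands for `b + ∑ u_j s_j` -/
abbrev Letter (k : ℕ) : Type := ℕ × (Fin k → ℕ)

/-- the index given by a pattern at the tuple `s` -/
def index {k : ℕ} (s : Fin k → ℕ) (w : List (Letter k)) : List ℕ :=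
  w.map fun u => u.1 + ∑ j, u.2 j * s j

/-- constant letters are positive, and the first letter is at least two if it is constant -/
def AdmissiblePattern {k : ℕ} (w : List (Letter k)) : Prop :=
  (∀ u ∈ w.head?, u.2 ≠ 0 ∨ 2 ≤ u.1) ∧ ∀ u ∈ w, u.2 ≠ 0 ∨ 1 ≤ u.1

open Classical in
/-- the constant letters in front of the first letter which is not constant -/
def constantPart {k : ℕ} : List (Letter k) → List ℕ
  | [] => []
  | u :: w => if u.2 = 0 then u.1 :: constantPart w else []

/-- admissible indices, among them the empty index, with their initial segments -/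
def FrontSet (Q : Set (List ℕ)) : Prop :=
  [] ∈ Q ∧ (∀ q ∈ Q, Admissible q) ∧ ∀ q ∈ Q, ∀ q', q' <+: q → q' ∈ Q

/-- some letter is not constant -/
def HasVariable {k : ℕ} (w : List (Letter k)) : Prop := ∃ u ∈ w, u.2 ≠ 0

/-- there is no nontrivial linear relation between the values of the patterns at `s` with integer coefficients of absolute
value at most `B` -/
def Independent {k r : ℕ} (w : Fin r → List (Letter k)) (B : ℝ) (s : Fin k → ℕ) : Prop :=
  ∀ c : Fin r → ℤ, (∀ i, |(c i : ℝ)| ≤ B) → ∑ i, (c i : ℝ) * mzv (index s (w i)) = 0 → c = 0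

/-- For all `κ` there is `K` such that for all `C` and all sufficiently large `N` the tuples `s` with `2 ≤ s_j ≤ κ N`, for
which the first letters of the patterns `w_i` which are not constant are at least `N`, and for which `P (C ^ N) s` fails, lie
on at most `K` hyperplanes `∑ b_j s_j = c` with integers `c` and `b_j`, not all zero, `|b_j| ≤ K`. -/
def OffHyperplanes {k r : ℕ} (w : Fin r → List (Letter k)) (P : ℝ → (Fin k → ℕ) → Prop) : Prop :=
  ∀ κ : ℕ, ∃ K : ℕ, ∀ C : ℝ, ∃ N₀ : ℕ, ∀ N : ℕ, N₀ ≤ N →
    OnHyperplanes K {s : Fin k → ℕ | s ∈ Range w κ N ∧ ¬ P (C ^ N) s}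

/-- For all `κ` and all dispersed families `F` there is `K` such that for all `C`, all sufficiently large `N` and all `W` there
are at most `K (W + 1)` numbers `n` for which there is a tuple `s` with `|s_j - F_j(n)| ≤ W` and `2 ≤ s_j ≤ κ N`, such that the
first letters of the patterns `w_i` which are not constant are at least `N`, and such that `P (C ^ N) s` fails. -/
def AlongDispersed {k r : ℕ} (w : Fin r → List (Letter k)) (P : ℝ → (Fin k → ℕ) → Prop) : Prop :=
  ∀ (κ : ℕ) (F : Fin k → ℕ → ℝ), Dispersed F → ∃ K : ℕ, ∀ C : ℝ, ∃ N₀ : ℕ, ∀ N : ℕ, N₀ ≤ N → ∀ W : ℕ,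
    {n : ℕ | ∃ s ∈ Range w κ N, (∀ j, |(s j : ℝ) - F j n| ≤ W) ∧ ¬ P (C ^ N) s}.encard ≤ (K * (W + 1) : ℕ)

/-- the words in the letters `2`, `3` -/
def Hoffman : Set (List ℕ) := {q | ∀ a ∈ q, a = 2 ∨ a = 3}

theorem trunc_eq : ∀ l m, trunc l m = Pool.Agent.Y760.ZG.hr l m := by
  intro l
  induction l with
  | nil => intro m; rw [trunc, Pool.Agent.Y760.ZG.hr]
  | cons s l ih =>
    intro m
    rw [trunc, Pool.Agent.Y760.ZG.hr]
    exact Finset.sum_congr rfl fun j _ => by rw [ih]

theorem mzv_eq : ∀ l, mzv l = Pool.Agent.Y760.ZG.mz l := by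
  intro l
  cases l with
  | nil => rw [mzv, Pool.Agent.Y760.ZG.mz]
  | cons s l =>
    rw [mzv, Pool.Agent.Y760.ZG.mz]
    exact tsum_congr fun k => by rw [trunc_eq]

theorem mzv_fun : mzv = Pool.Agent.Y760.ZG.mz := funext mzv_eq

theorem constantPart_eq {k : ℕ} : ∀ w : List (Letter k), constantPart w = Pool.Agent.X90.DC.fpx w := by
  intro w
  induction w with
  | nil => rw [constantPart, Pool.Agent.X90.DC.fpx]
  | cons u w ih =>
    rw [constantPart, Pool.Agent.X90.DC.fpx, ih]

theorem adm_iff : ∀ u, Admissible u ↔ (u = [] ∨ Pool.Agent.X90.DB.Ad u) := by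
  intro u
  cases u with
  | nil => exact ⟨fun _ => Or.inl rfl, fun _ => trivial⟩
  | cons a l => exact ⟨fun h => Or.inr h, fun h => h.resolve_left (List.cons_ne_nil _ _)⟩

theorem ind_iff {k r : ℕ} (w : Fin r → List (Letter k)) : Independent w = NoRel w := by
  funext B s
  rw [Independent, mzv_fun]
  rfl

theorem hoffman_front : FrontSet Hoffman :=
  ⟨fun _ ha => absurd ha List.not_mem_nil, fun q hq => (adm_iff q).2 (Pool.Agent.U553.HY.h23_ad q hq),
    Pool.Agent.U553.HY.h23_cl⟩

theorem part2 (Q : Set (List ℕ)) (hQ : FrontSet Q) : List.TFAE [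
    LinearIndependent ℚ fun q : Q => mzv q.1,
    ∀ (k r : ℕ) (w : Fin r → List (Letter k)), Function.Injective w →
      (∀ i, AdmissiblePattern (w i) ∧ constantPart (w i) ∈ Q) → OffHyperplanes w (Independent w),
    ∀ (k r : ℕ) (w : Fin r → List (Letter k)), Function.Injective w →
      (∀ i, AdmissiblePattern (w i) ∧ constantPart (w i) ∈ Q) → AlongDispersed w (Independent w),
    ∀ (r : ℕ) (w : Fin r → List (Letter 1)), Function.Injective w →
      (∀ i, AdmissiblePattern (w i) ∧ constantPart (w i) ∈ Q ∧ HasVariable (w i)) →
      ∀ B : ℝ, ∃ s : Fin 1 → ℕ, 2 ≤ s 0 ∧ Independent w B s] := by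
  simp only [ind_iff, constantPart_eq, mzv_fun]
  exact coreI Q (fun q hq => (adm_iff q).1 (hQ.2.1 q hq)) hQ.2.2

/-- **Theorem.** (1) The Hoffman elements are linearly independent if and only if all families of different patterns whose
constant parts are words in `2`, `3` are independent off few hyperplanes, if and only if they are so along dispersed families,
if and only if for all such families in one variable and all `B` there is one good argument. (2) The same for other sets of
constant parts. (3) Unconditional cases. -/
theorem result :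
    -- (1) the Hoffman elements
    List.TFAE [
      LinearIndependent ℚ fun q : Hoffman => mzv q.1,
      ∀ (k r : ℕ) (w : Fin r → List (Letter k)), Function.Injective w →
        (∀ i, AdmissiblePattern (w i) ∧ constantPart (w i) ∈ Hoffman) → OffHyperplanes w (Independent w),
      ∀ (k r : ℕ) (w : Fin r → List (Letter k)), Function.Injective w →
        (∀ i, AdmissiblePattern (w i) ∧ constantPart (w i) ∈ Hoffman) → AlongDispersed w (Independent w),
      ∀ (r : ℕ) (w : Fin r → List (Letter 1)), Function.Injective w →
        (∀ i, AdmissiblePattern (w i) ∧ constantPart (w i) ∈ Hoffman ∧ HasVariable (w i)) →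
        ∀ B : ℝ, ∃ s : Fin 1 → ℕ, 2 ≤ s 0 ∧ Independent w B s] ∧
    -- (2) other sets of constant parts
    (∀ Q : Set (List ℕ), FrontSet Q → List.TFAE [
      LinearIndependent ℚ fun q : Q => mzv q.1,
      ∀ (k r : ℕ) (w : Fin r → List (Letter k)), Function.Injective w →
        (∀ i, AdmissiblePattern (w i) ∧ constantPart (w i) ∈ Q) → OffHyperplanes w (Independent w),
      ∀ (k r : ℕ) (w : Fin r → List (Letter k)), Function.Injective w →
        (∀ i, AdmissiblePattern (w i) ∧ constantPart (w i) ∈ Q) → AlongDispersed w (Independent w),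
      ∀ (r : ℕ) (w : Fin r → List (Letter 1)), Function.Injective w →
        (∀ i, AdmissiblePattern (w i) ∧ constantPart (w i) ∈ Q ∧ HasVariable (w i)) →
        ∀ B : ℝ, ∃ s : Fin 1 → ℕ, 2 ≤ s 0 ∧ Independent w B s]) ∧
    -- (3) unconditional cases
    (∀ m : ℕ, 1 ≤ m → ∀ (k r : ℕ) (w : Fin r → List (Letter k)), Function.Injective w →
      (∀ i, AdmissiblePattern (w i) ∧ ∃ n : ℕ, constantPart (w i) = List.replicate n (2 * m)) →
      OffHyperplanes w (Independent w)) ∧
    (∀ (k r : ℕ) (w : Fin r → List (Letter k)), Function.Injective w →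
      (∀ i, AdmissiblePattern (w i) ∧
        (constantPart (w i) = [] ∨ constantPart (w i) = [2] ∨ constantPart (w i) = [3])) →
      OffHyperplanes w (Independent w)) ∧
    -- polynomials
    (∀ (k : ℕ) (p : Fin k → Polynomial ℝ), (∀ b : Fin k → ℤ, b ≠ 0 → 0 < (∑ j, (b j : ℝ) • p j).natDegree) →
      Dispersed fun j n => (p j).eval (n : ℝ)) := by
  refine ⟨part2 _ hoffman_front, part2, ?_, ?_, fun k p hp => Pool.Agent.U553.HY.dispersed_poly p hp⟩
  · intro m hm k r w hinj hw
    rw [ind_iff]
    simp only [constantPart_eq] at hw
    exact off_even m hm w hinj hw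
  · intro k r w hinj hw
    rw [ind_iff]
    simp only [constantPart_eq] at hw
    exact off_23 w hinj hw

end Pool.Agent.Results.MP_c2d7b4_nt.PatternsWithHoffmanFronts
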