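import Mathlib
import Pool.Agent.U623.HZ.Fin

/-!
# MP_c2d7b4_nt: multiple zeta star values with a common first part

Let `U` be a finite set of words in positive integers and `p` a word with letters at least two. The multiple zeta star values
`ζ⋆(p u)`, `u ∈ U` (the letters of `p` belong to the largest summation variables, the sums run over
`n_1 ≥ n_2 ≥ ... ≥ 1`), are integer combinations of multiple zeta values of weight `wt p + wt u`. They satisfy no linear
relation whose coefficients are polynomials in `π` of degree at most `d` with integer coefficients of absolute value at most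
`κ ρ ^ wt p`, where `κ > 0` and `ρ > 1` depend only on `U` and `d`; and the values of these linear forms are at least
`κ / L ^ wt p`. For the ordinary values `ζ(p u)` the known bound for the heights is linear in the length of `p`
(`MP_301213_nt.CommonPrefix`).

Proof. `ζ⋆(p u)` is the sum of the truncated star sums of `u` at `n` with weights `w(n)` which depend on `p`, and
`n ^ (- wt p) ≤ w(n) ≤ C(n) n ^ (- wt p)`: the variables of `p` can all be equal to `n`. So the first `n` with a nonzero
combination of the truncated star sums decides. The truncated star sums are linearly independent over the real numbers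
(merging of letters is triangular with respect to the length), so that this `n` is bounded in terms of `U`.
-/

set_option autoImplicit false

namespace Pool.Agent.Results.MP_c2d7b4_nt.StarValuesCommonFirstPart

open Filter Topology

/-- the truncated star sum of the list `l`: the sum of `∏ n_i ^ (- l_i)` over the integers
`N ≥ n_1 ≥ n_2 ≥ ... ≥ n_r ≥ 1`, the first entry belongs to the largest variable -/
noncomputable def starSum : List ℕ → ℕ → ℝ
  | [], _ => 1
  | (a :: s), N => ∑ n ∈ Finset.range N, (((n + 1 : ℕ) : ℝ) ^ a)⁻¹ * starSum s (n + 1)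

/-- the multiple zeta star value: the limit of the truncated star sums -/
noncomputable def star (l : List ℕ) : ℝ := limUnder atTop (starSum l)

/-- the list of natural numbers of a list of positive integers -/
def toNat (u : List ℕ+) : List ℕ := List.map (fun x : ℕ+ => (x : ℕ)) u

lemma starSum_eq (l : List ℕ) : starSum l = Pool.Agent.U623.HZ.Hs l := by
  induction l with
  | nil => funext N; rw [starSum, Pool.Agent.U623.HZ.Hs_nil]
  | cons a s ih => funext N; rw [starSum, Pool.Agent.U623.HZ.Hs_cons, ih]

lemma star_eq (l : List ℕ) : star l = Pool.Agent.U623.HZ.sval l := by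
  rw [star, Pool.Agent.U623.HZ.sval, starSum_eq]

/-- **Theorem.** Let `U` be a finite set of words in positive integers and `d` a natural number. There is `L ≥ 1` with the
following properties. (0) For all nonempty words `p` with letters at least two and all words `u` the truncated star sums of
`p u` converge, to `ζ⋆(p u)`. (1) For all real numbers `c_u`, `u ∈ U`, not all zero, there are `κ > 0` and `w0` with
`|∑ c_u ζ⋆(p u)| ≥ κ / L ^ wt p` for all words `p` with letters at least two and `wt p ≥ w0`. (2) There are `κ > 0` and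
`ρ > 1` such that `|∑ C_u(π) ζ⋆(p u)| ≥ κ / L ^ wt p` for all nonempty words `p` with letters at least two and all
polynomials `C_u`, `u ∈ U`, of degree at most `d`, not all zero, with integer coefficients of absolute value at most
`κ ρ ^ wt p`. -/
theorem result (U : Finset (List ℕ+)) (d : ℕ) : ∃ L : ℕ, 1 ≤ L ∧
    (∀ p : List ℕ, p ≠ [] → (∀ x ∈ p, 2 ≤ x) → ∀ u : List ℕ+,
      Tendsto (starSum (p ++ toNat u)) atTop (𝓝 (star (p ++ toNat u)))) ∧
    (∀ c : List ℕ+ → ℝ, (∃ u ∈ U, c u ≠ 0) → ∃ κ : ℝ, 0 < κ ∧ ∃ w0 : ℕ, ∀ p : List ℕ, p ≠ [] → (∀ x ∈ p, 2 ≤ x) →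
      w0 ≤ p.sum → κ / (L : ℝ) ^ p.sum ≤ |∑ u ∈ U, c u * star (p ++ toNat u)|) ∧
    (∃ κ ρ : ℝ, 0 < κ ∧ 1 < ρ ∧ ∀ p : List ℕ, p ≠ [] → (∀ x ∈ p, 2 ≤ x) → ∀ C : List ℕ+ → Polynomial ℤ,
      (∃ u ∈ U, C u ≠ 0) → (∀ u ∈ U, (C u).natDegree ≤ d) →
      (∀ u ∈ U, ∀ i, |((C u).coeff i : ℝ)| ≤ κ * ρ ^ p.sum) →
      κ / (L : ℝ) ^ p.sum ≤ |∑ u ∈ U, Polynomial.aeval Real.pi (C u) * star (p ++ toNat u)|) := by
  obtain ⟨L, hL, h1, h2⟩ := Pool.Agent.U623.HZ.main U d
  refine ⟨L, hL, ?_, ?_, ?_⟩
  · intro p hp0 hp u
    rw [star_eq, starSum_eq]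
    exact Pool.Agent.U623.HZ.tendsto_all p hp0 hp u
  · simp only [star_eq]
    exact h1
  · simp only [star_eq]
    exact h2

end Pool.Agent.Results.MP_c2d7b4_nt.StarValuesCommonFirstPart
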